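import Pool.Agent.H11.EL.Targets

/-!
# MP_0b603e_al, module LN: the values of `Th` on an abelian normal subgroup
-/

set_option autoImplicit false

open scoped commutatorElement

namespace Pool.Agent.H59.EL

open Pool.Agent.H11.EL

theorem ln_comm8 {G : Type} [Group G] {A : Subgroup G}
    (hc : ∀ x ∈ A, ∀ y ∈ A, x * y = y * x) {p p' q q' r r' s s' : G}
    (hp : p ∈ A) (hp' : p' ∈ A) (hq : q ∈ A) (hq' : q' ∈ A) (hr : r ∈ A) (hr' : r' ∈ A)
    (hs : s ∈ A) (hs' : s' ∈ A) :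
    p * p' * (q * q') * (r' * r) * (s' * s) = p * q * r * s * (p' * q' * r' * s') := by
  let _ : CommGroup A :=
    { (inferInstance : Group A) with
      mul_comm := fun x y => Subtype.ext (hc x.1 x.2 y.1 y.2) }
  have key : ∀ P P' Q Q' R R' S S' : A,
      P * P' * (Q * Q') * (R' * R) * (S' * S) = P * Q * R * S * (P' * Q' * R' * S') := by
    intro P P' Q Q' R R' S S'
    have h1 : P * P' * (Q * Q') = P * Q * (P' * Q') := mul_mul_mul_comm _ _ _ _
    rw [h1, mul_comm R' R, mul_comm S' S, mul_mul_mul_comm (P * Q) (P' * Q') R R',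
      mul_mul_mul_comm (P * Q * R) (P' * Q' * R') S S']
  exact congrArg Subtype.val (key ⟨p, hp⟩ ⟨p', hp'⟩ ⟨q, hq⟩ ⟨q', hq'⟩ ⟨r, hr⟩ ⟨r', hr'⟩
    ⟨s, hs⟩ ⟨s', hs'⟩)

theorem ln_th_mul {G : Type} [Group G] {A : Subgroup G} (hA : A.Normal)
    (hc : ∀ x ∈ A, ∀ y ∈ A, x * y = y * x) (a b : G) {x y x' y' : G}
    (hx : x ∈ A) (hy : y ∈ A) (hx' : x' ∈ A) (hy' : y' ∈ A) :
    th a b (x * x') (y * y') = th a b x y * th a b x' y' := by
  have h := ln_comm8 hc hx hx' (hA.conj_mem y hy a) (hA.conj_mem y' hy' a)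
    (hA.conj_mem _ (A.inv_mem hx) (a * b * a⁻¹)) (hA.conj_mem _ (A.inv_mem hx') (a * b * a⁻¹))
    (hA.conj_mem _ (A.inv_mem hy) ⁅a, b⁆) (hA.conj_mem _ (A.inv_mem hy') ⁅a, b⁆)
  unfold th
  rw [← h]
  group

theorem ln_Th_mul {G : Type} [Group G] {A : Subgroup G} (hA : A.Normal)
    (hc : ∀ x ∈ A, ∀ y ∈ A, x * y = y * x) (n : ℕ) (a b : ℕ → G) {x y x' y' : ℕ → G}
    (hx : ∀ i, x i ∈ A) (hy : ∀ i, y i ∈ A) (hx' : ∀ i, x' i ∈ A) (hy' : ∀ i, y' i ∈ A) :
    Th n a b (fun i => x i * x' i) (fun i => y i * y' i) = Th n a b x y * Th n a b x' y' := by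
  induction n with
  | zero => simp
  | succ n ih =>
    rw [Th_succ, Th_succ, Th_succ, ih, ln_th_mul hA hc _ _ (hx n) (hy n) (hx' n) (hy' n)]
    have h1 : Th n a b x' y' ∈ A := Th_mem hA (fun i _ => hx' i) (fun i _ => hy' i)
    have h2 : cp n a b * th (a n) (b n) (x n) (y n) * (cp n a b)⁻¹ ∈ A :=
      hA.conj_mem _ (th_mem hA (hx n) (hy n)) _
    have h3 := hc _ h1 _ h2
    calc Th n a b x y * Th n a b x' y' *
          (cp n a b * (th (a n) (b n) (x n) (y n) * th (a n) (b n) (x' n) (y' n)) *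
            (cp n a b)⁻¹)
        = Th n a b x y * (Th n a b x' y' *
            (cp n a b * th (a n) (b n) (x n) (y n) * (cp n a b)⁻¹)) *
            (cp n a b * th (a n) (b n) (x' n) (y' n) * (cp n a b)⁻¹) := by group
      _ = _ := by rw [h3]; group

theorem ln_th_one {G : Type} [Group G] (a b : G) : th a b 1 1 = 1 := by
  unfold th
  group

theorem ln_Th_one {G : Type} [Group G] (n : ℕ) (a b x y : ℕ → G)
    (hx : ∀ j < n, x j = 1) (hy : ∀ j < n, y j = 1) : Th n a b x y = 1 := by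
  induction n with
  | zero => simp
  | succ n ih =>
    rw [Th_succ, ih (fun j hj => hx j (by omega)) (fun j hj => hy j (by omega)),
      hx n (by omega), hy n (by omega), ln_th_one]
    simp

theorem ln_Th_single {G : Type} [Group G] (n : ℕ) (a b x y : ℕ → G) (i : ℕ) (hi : i < n)
    (hx : ∀ j, j ≠ i → x j = 1) (hy : ∀ j, j ≠ i → y j = 1) :
    Th n a b x y = cp i a b * th (a i) (b i) (x i) (y i) * (cp i a b)⁻¹ := by
  induction n with
  | zero => omega
  | succ n ih =>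
    rw [Th_succ]
    rcases Nat.lt_succ_iff_lt_or_eq.1 hi with h | h
    · rw [ih h, hx n (by omega), hy n (by omega), ln_th_one]
      simp
    · subst h
      rw [ln_Th_one i a b x y (fun j hj => hx j (by omega)) (fun j hj => hy j (by omega)),
        one_mul]

/-- the subgroup of the values of `Th` -/
def lnI {G : Type} [Group G] (A : Subgroup G) (hA : A.Normal)
    (hc : ∀ x ∈ A, ∀ y ∈ A, x * y = y * x) (n : ℕ) (a b : ℕ → G) : Subgroup G where
  carrier := {g | ∃ x y : ℕ → G, (∀ i, x i ∈ A) ∧ (∀ i, y i ∈ A) ∧ Th n a b x y = g}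
  one_mem' := ⟨fun _ => 1, fun _ => 1, fun _ => A.one_mem, fun _ => A.one_mem,
    ln_Th_one n a b _ _ (fun _ _ => rfl) (fun _ _ => rfl)⟩
  mul_mem' := by
    rintro g h ⟨x, y, hx, hy, rfl⟩ ⟨x', y', hx', hy', rfl⟩
    exact ⟨fun i => x i * x' i, fun i => y i * y' i, fun i => A.mul_mem (hx i) (hx' i),
      fun i => A.mul_mem (hy i) (hy' i), ln_Th_mul hA hc n a b hx hy hx' hy'⟩
  inv_mem' := by
    rintro g ⟨x, y, hx, hy, rfl⟩
    refine ⟨fun i => (x i)⁻¹, fun i => (y i)⁻¹, fun i => A.inv_mem (hx i),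
      fun i => A.inv_mem (hy i), ?_⟩
    have h := ln_Th_mul hA hc n a b hx hy (fun i => A.inv_mem (hx i))
      (fun i => A.inv_mem (hy i))
    rw [ln_Th_one n a b (fun i => x i * (x i)⁻¹) (fun i => y i * (y i)⁻¹)
      (fun j _ => mul_inv_cancel _) (fun j _ => mul_inv_cancel _)] at h
    exact eq_inv_of_mul_eq_one_right h.symm

/-- the elements acting trivially modulo `I` -/
def lnS {G : Type} [Group G] (A : Subgroup G) (hA : A.Normal) (I : Subgroup G) :
    Subgroup G where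
  carrier := {g | ∀ t ∈ A, t * (g * t * g⁻¹)⁻¹ ∈ I}
  one_mem' := by
    intro t _
    have h : t * (1 * t * 1⁻¹)⁻¹ = 1 := by group
    rw [h]
    exact I.one_mem
  mul_mem' := by
    intro g h hg hh t ht
    have h1 := I.mul_mem (hh t ht) (hg _ (hA.conj_mem t ht h))
    have h2 : t * (h * t * h⁻¹)⁻¹ * (h * t * h⁻¹ * (g * (h * t * h⁻¹) * g⁻¹)⁻¹) =
        t * (g * h * t * (g * h)⁻¹)⁻¹ := by group
    rw [h2] at h1
    exact h1
  inv_mem' := by
    intro g hg t ht
    have h0 : g⁻¹ * t * g⁻¹⁻¹ ∈ A := hA.conj_mem t ht g⁻¹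
    have h1 := I.inv_mem (hg _ h0)
    have h2 : (g⁻¹ * t * g⁻¹⁻¹ * (g * (g⁻¹ * t * g⁻¹⁻¹) * g⁻¹)⁻¹)⁻¹ =
        t * (g⁻¹ * t * g⁻¹⁻¹)⁻¹ := by group
    rw [h2] at h1
    exact h1

theorem ln_cp_mem {G : Type} [Group G] {S : Subgroup G} (n : ℕ) (a b : ℕ → G)
    (ha : ∀ j < n, a j ∈ S) (hb : ∀ j < n, b j ∈ S) : cp n a b ∈ S := by
  induction n with
  | zero => simp
  | succ n ih =>
    rw [cp_succ, commutatorElement_def]
    have h1 := ha n (by omega)
    have h2 := hb n (by omega)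
    exact S.mul_mem (ih (fun j hj => ha j (by omega)) (fun j hj => hb j (by omega)))
      (S.mul_mem (S.mul_mem (S.mul_mem h1 h2) (S.inv_mem h1)) (S.inv_mem h2))

theorem pf_ln : T_LN := by
  intro G _ A C hA hc hcC n a b hcl κ hκ
  set I := lnI A hA hc n a b with hI
  set S := lnS A hA I with hS
  -- the conjugates
  have hu : ∀ i < n, cp i a b * (a i * b i * (a i)⁻¹) * (cp i a b)⁻¹ ∈ S := by
    intro i hi t ht
    have hx : (cp i a b)⁻¹ * t * (cp i a b)⁻¹⁻¹ ∈ A := hA.conj_mem t ht _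
    refine ⟨fun j => if j = i then (cp i a b)⁻¹ * t * (cp i a b)⁻¹⁻¹ else 1, fun _ => 1,
      ?_, fun _ => A.one_mem, ?_⟩
    · intro j
      change (if j = i then (cp i a b)⁻¹ * t * (cp i a b)⁻¹⁻¹ else 1) ∈ A
      split_ifs
      · exact hx
      · exact A.one_mem
    · rw [ln_Th_single n a b _ _ i hi (fun j hj => if_neg hj) (fun _ _ => rfl)]
      simp only [if_true, th]
      group
  have hv : ∀ i < n, cp i a b * (a i * b i * (a i)⁻¹ * (b i)⁻¹ * (a i)⁻¹) * (cp i a b)⁻¹ ∈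
      S := by
    intro i hi t ht
    have hy : (cp i a b * a i)⁻¹ * t * (cp i a b * a i)⁻¹⁻¹ ∈ A := hA.conj_mem t ht _
    refine ⟨fun _ => 1,
      fun j => if j = i then (cp i a b * a i)⁻¹ * t * (cp i a b * a i)⁻¹⁻¹ else 1,
      fun _ => A.one_mem, ?_, ?_⟩
    · intro j
      change (if j = i then (cp i a b * a i)⁻¹ * t * (cp i a b * a i)⁻¹⁻¹ else 1) ∈ A
      split_ifs
      · exact hy
      · exact A.one_mem
    · rw [ln_Th_single n a b _ _ i hi (fun _ _ => rfl) (fun j hj => if_neg hj)]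
      simp only [if_true, th, commutatorElement_def]
      group
  have hmem : ∀ i ≤ n, ∀ j < i, a j ∈ S ∧ b j ∈ S := by
    intro i
    induction i with
    | zero => intro _ j hj; omega
    | succ i ih =>
      intro hi j hj
      have ih' := ih (by omega)
      rcases Nat.lt_succ_iff_lt_or_eq.1 hj with h | h
      · exact ih' j h
      · subst h
        have hcp : cp j a b ∈ S := ln_cp_mem j a b (fun k hk => (ih' k hk).1)
          (fun k hk => (ih' k hk).2)
        have h1 := S.mul_mem (S.mul_mem (S.inv_mem hcp) (hu j (by omega))) hcp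
        have h2 := S.mul_mem (S.mul_mem (S.inv_mem hcp) (hv j (by omega))) hcp
        have e1 : (cp j a b)⁻¹ * (cp j a b * (a j * b j * (a j)⁻¹) * (cp j a b)⁻¹) *
            cp j a b = a j * b j * (a j)⁻¹ := by group
        have e2 : (cp j a b)⁻¹ * (cp j a b * (a j * b j * (a j)⁻¹ * (b j)⁻¹ * (a j)⁻¹) *
            (cp j a b)⁻¹) * cp j a b = a j * b j * (a j)⁻¹ * (b j)⁻¹ * (a j)⁻¹ := by group
        rw [e1] at h1
        rw [e2] at h2
        have h3 : a j ∈ S := by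
          have h4 := S.mul_mem (S.mul_mem (S.inv_mem h1) (S.inv_mem h2)) h1
          have e3 : (a j * b j * (a j)⁻¹)⁻¹ * (a j * b j * (a j)⁻¹ * (b j)⁻¹ * (a j)⁻¹)⁻¹ *
              (a j * b j * (a j)⁻¹) = a j := by group
          rw [e3] at h4
          exact h4
        refine ⟨h3, ?_⟩
        have h5 := S.mul_mem (S.mul_mem (S.inv_mem h3) h1) h3
        have e4 : (a j)⁻¹ * (a j * b j * (a j)⁻¹) * a j = b j := by group
        rw [e4] at h5
        exact h5
  have htop : (⊤ : Subgroup G) ≤ S := by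
    rw [← hcl, Subgroup.closure_le]
    rintro g (⟨i, hi, h | h⟩ | hg)
    · rw [h]; exact (hmem n le_rfl i hi).1
    · rw [h]; exact (hmem n le_rfl i hi).2
    · intro t ht
      have h1 := hcC t ht g hg
      have h2 : t * (g * t * g⁻¹)⁻¹ = 1 := by
        rw [← h1]; group
      rw [h2]
      exact I.one_mem
  have hle : ⁅A, (⊤ : Subgroup G)⁆ ≤ I := by
    rw [Subgroup.commutator_le]
    intro t ht g hg
    have h1 := htop hg t ht
    have h2 : t * (g * t * g⁻¹)⁻¹ = ⁅t, g⁆ := by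
      rw [commutatorElement_def]; group
    rw [h2] at h1
    exact h1
  exact hle hκ

end Pool.Agent.H59.EL
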